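import Pool.Agent.MP_e27144_an.LeadDense

/-!
# Averages of characters over multiplicative windows of `{2 ^ a * 3 ^ b}`: two nearby points
-/

open Set Filter Topology MeasureTheory
open scoped ENNReal NNReal Real

namespace Pool.Agent.H29E

/-- The elements of the semigroup `{2 ^ a * 3 ^ b}` in `[(1 + ε) ^ k, (1 + ε) ^ (k + 1))`. -/
noncomputable def window (ε : ℝ) (k : ℕ) : Finset ℕ :=
  open Classical in
  (Finset.Ico ⌈(1 + ε) ^ k⌉₊ ⌈(1 + ε) ^ (k + 1)⌉₊).filter (fun s => ∃ a b : ℕ, s = 2 ^ a * 3 ^ b)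

/-- The average over the window of the characters `e(m s x)`. -/
noncomputable def avg (ε : ℝ) (m : ℤ) (k : ℕ) (x : AddCircle (1 : ℝ)) : ℂ :=
  (∑ s ∈ window ε k, fourier (m * (s : ℤ)) x) / ((window ε k).card : ℂ)

lemma mem_window {ε : ℝ} {k s : ℕ} :
    s ∈ window ε k ↔ ((1 + ε) ^ k ≤ s ∧ (s : ℝ) < (1 + ε) ^ (k + 1)) ∧ ∃ a b : ℕ, s = 2 ^ a * 3 ^ b := by
  classical
  simp only [window, Finset.mem_filter, Finset.mem_Ico, Nat.ceil_le, Nat.lt_ceil]

lemma norm_avg_le (ε : ℝ) (m : ℤ) (k : ℕ) (x : AddCircle (1 : ℝ)) : ‖avg ε m k x‖ ≤ 1 := by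
  unfold avg
  rw [norm_div, Complex.norm_natCast]
  rcases Nat.eq_zero_or_pos (window ε k).card with h | h
  · rw [h]; simp
  · rw [div_le_one (by exact_mod_cast h)]
    refine (norm_sum_le _ _).trans ?_
    have : ∀ s ∈ window ε k, ‖fourier (m * (s : ℤ)) x‖ ≤ 1 := by
      intro s _
      exact (ContinuousMap.norm_coe_le_norm _ _).trans (fourier_norm _).le
    refine (Finset.sum_le_sum this).trans ?_
    simp

lemma continuous_avg (ε : ℝ) (m : ℤ) (k : ℕ) : Continuous (avg ε m k) := by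
  unfold avg
  exact (continuous_finsetSum _ fun s _ => (fourier _).continuous).div_const _

/-- If `|n t|` is close to `1/2` then `e(n t)` is close to `-1`. -/
lemma norm_fourier_add_one_le {n : ℤ} {t ε : ℝ} (hε : 0 < ε) (h1 : 1 / (2 * (1 + ε)) ≤ |n * t|)
    (h2 : |n * t| ≤ (1 + ε) / 2) :
    ‖fourier n (t : AddCircle (1 : ℝ)) + 1‖ ≤ π * ε := by
  have key : ∀ u : ℝ, 0 ≤ u → 1 / (2 * (1 + ε)) ≤ u → u ≤ (1 + ε) / 2 →
      ‖Complex.exp (Complex.I * ((2 * π * u - π : ℝ) : ℂ)) - 1‖ ≤ π * ε := by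
    intro u _ hu1 hu2
    refine Real.norm_exp_I_mul_ofReal_sub_one_le.trans ?_
    rw [Real.norm_eq_abs, abs_le]
    have hpi := Real.pi_pos
    constructor
    · have : 1 - ε ≤ 1 / (1 + ε) := by
        rw [le_div_iff₀ (by linarith)]; nlinarith
      have h3 : 1 / (2 * (1 + ε)) = (1 / (1 + ε)) / 2 := by field_simp
      rw [h3] at hu1
      nlinarith
    · nlinarith
  have e1 : fourier n (t : AddCircle (1 : ℝ)) = Complex.exp (2 * π * Complex.I * n * t) := by
    rw [fourier_coe_apply]; simp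
  rw [e1]
  rcases le_total 0 ((n : ℝ) * t) with h | h
  · have hk := key ((n : ℝ) * t) h (by rwa [abs_of_nonneg h] at h1) (by rwa [abs_of_nonneg h] at h2)
    have e2 : Complex.exp (Complex.I * ((2 * π * ((n : ℝ) * t) - π : ℝ) : ℂ))
        = - Complex.exp (2 * π * Complex.I * n * t) := by
      have : Complex.I * ((2 * π * ((n : ℝ) * t) - π : ℝ) : ℂ)
          = 2 * π * Complex.I * n * t - π * Complex.I := by push_cast; ring
      rw [this, Complex.exp_sub, Complex.exp_pi_mul_I]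
      ring
    rw [e2] at hk
    rw [show - Complex.exp (2 * π * Complex.I * n * t) - 1
      = -(Complex.exp (2 * π * Complex.I * n * t) + 1) by ring, norm_neg] at hk
    exact hk
  · have hk := key (-((n : ℝ) * t)) (by linarith) (by rwa [abs_of_nonpos h] at h1)
      (by rwa [abs_of_nonpos h] at h2)
    have e2 : Complex.exp (Complex.I * ((2 * π * (-((n : ℝ) * t)) - π : ℝ) : ℂ))
        = - (starRingEnd ℂ) (Complex.exp (2 * π * Complex.I * n * t)) := by
      have e3 : Complex.I * ((2 * π * (-((n : ℝ) * t)) - π : ℝ) : ℂ)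
          = (starRingEnd ℂ) (2 * π * Complex.I * n * t) - π * Complex.I := by
        simp only [map_mul, Complex.conj_I, Complex.conj_ofReal, map_ofNat, map_intCast]
        push_cast; ring
      rw [e3, Complex.exp_sub, Complex.exp_pi_mul_I, Complex.exp_conj]
      ring
    rw [e2] at hk
    rw [show -(starRingEnd ℂ) (Complex.exp (2 * π * Complex.I * n * t)) - 1
      = -(starRingEnd ℂ) (Complex.exp (2 * π * Complex.I * n * t) + 1) by simp; ring, norm_neg,
      RCLike.norm_conj] at hk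
    exact hk

/-- Two distinct points: at the scale of their distance the averages are almost opposite. -/
lemma norm_avg_add_avg_le {ε : ℝ} (hε : 0 < ε) {m : ℤ} {k : ℕ} {x y : AddCircle (1 : ℝ)}
    (h1 : (1 + ε) ^ k * (|(m : ℝ)| * ‖x - y‖) ≤ 1 / 2)
    (h2 : 1 / 2 ≤ (1 + ε) ^ (k + 1) * (|(m : ℝ)| * ‖x - y‖)) :
    ‖avg ε m k x + avg ε m k y‖ ≤ π * ε := by
  unfold avg
  rw [← add_div, ← Finset.sum_add_distrib, norm_div, Complex.norm_natCast]
  rcases Nat.eq_zero_or_pos (window ε k).card with h | h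
  · rw [h]; simp; positivity
  · rw [div_le_iff₀ (by exact_mod_cast h)]
    refine (norm_sum_le _ _).trans ?_
    obtain ⟨t, ht, htn⟩ := Pool.Agent.MP_e27144_an.exists_rep (x - y)
    have hd0 : 0 ≤ |(m : ℝ)| * ‖x - y‖ := by positivity
    have : ∀ s ∈ window ε k, ‖fourier (m * (s : ℤ)) x + fourier (m * (s : ℤ)) y‖ ≤ π * ε := by
      intro s hs
      obtain ⟨⟨hs1, hs2⟩, -⟩ := mem_window.mp hs
      have hx : x = y + (x - y) := by abel
      have e1 : fourier (m * (s : ℤ)) x
          = fourier (m * (s : ℤ)) y * fourier (m * (s : ℤ)) (x - y) := by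
        conv_lhs => rw [hx]
        simp only [fourier_apply, smul_add, AddCircle.toCircle_add, Circle.coe_mul]
      have e2 : fourier (m * (s : ℤ)) x + fourier (m * (s : ℤ)) y
          = fourier (m * (s : ℤ)) y * (fourier (m * (s : ℤ)) (x - y) + 1) := by
        rw [e1]; ring
      have hn1 : ‖fourier (m * (s : ℤ)) y‖ ≤ 1 :=
        (ContinuousMap.norm_coe_le_norm _ _).trans (fourier_norm _).le
      rw [e2, norm_mul]
      have hmain : ‖fourier (m * (s : ℤ)) (x - y) + 1‖ ≤ π * ε := by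
        rw [← ht]
        have habs : |((m * (s : ℤ) : ℤ) : ℝ) * t| = s * (|(m : ℝ)| * ‖x - y‖) := by
          push_cast
          rw [abs_mul, abs_mul, htn, Nat.abs_cast]; ring
        apply norm_fourier_add_one_le hε
        · rw [habs, div_le_iff₀ (by positivity)]
          have h3 : (1 + ε) ^ (k + 1) * (|(m : ℝ)| * ‖x - y‖)
              ≤ (1 + ε) * (s * (|(m : ℝ)| * ‖x - y‖)) := by
            rw [pow_succ]
            have := mul_le_mul_of_nonneg_right hs1 hd0
            nlinarith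
          nlinarith
        · rw [habs]
          have h3 : s * (|(m : ℝ)| * ‖x - y‖) ≤ (1 + ε) ^ (k + 1) * (|(m : ℝ)| * ‖x - y‖) :=
            mul_le_mul_of_nonneg_right hs2.le hd0
          rw [pow_succ] at h3
          nlinarith
      calc ‖fourier (m * (s : ℤ)) y‖ * ‖fourier (m * (s : ℤ)) (x - y) + 1‖
          ≤ 1 * (π * ε) := by
            apply mul_le_mul hn1 hmain (norm_nonneg _) (by norm_num)
        _ = π * ε := one_mul _
    refine (Finset.sum_le_sum this).trans ?_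
    rw [Finset.sum_const, nsmul_eq_mul]
    linarith

/-- The relevant scale for two distinct nearby points. -/
lemma exists_scale {ε : ℝ} (hε : 0 < ε) {d : ℝ} (hd : 0 < d) {K : ℕ}
    (hK : (1 + ε) ^ K * d ≤ 1 / 2) :
    ∃ k, K ≤ k ∧ (1 + ε) ^ k * d ≤ 1 / 2 ∧ 1 / 2 ≤ (1 + ε) ^ (k + 1) * d := by
  have h1 : 1 ≤ 1 / (2 * d) := by
    rw [le_div_iff₀ (by positivity)]
    have : (1 : ℝ) ≤ (1 + ε) ^ K := one_le_pow₀ (by linarith)
    nlinarith
  obtain ⟨k, hk1, hk2⟩ := exists_nat_pow_near h1 (show 1 < 1 + ε by linarith)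
  rw [le_div_iff₀ (by positivity)] at hk1
  rw [div_lt_iff₀ (by positivity)] at hk2
  refine ⟨k, ?_, by linarith, by linarith⟩
  by_contra hcon
  push Not at hcon
  have h3 : (1 + ε) ^ (k + 1) ≤ (1 + ε) ^ K := pow_le_pow_right₀ (by linarith) hcon
  have : (1 + ε) ^ (k + 1) * d ≤ (1 + ε) ^ K * d := mul_le_mul_of_nonneg_right h3 hd.le
  linarith

/-- Points all of whose averages from some scale on stay in a half plane away from `0`
form a countable set. -/
lemma countable_halfplane_aux {ε : ℝ} (hε : 0 < ε) {m : ℤ} (hm : m ≠ 0) (ω : ℂ) (r : ℝ)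
    (hr : ‖ω‖ * (π * ε) < 2 * r) (K : ℕ) :
    {x : AddCircle (1 : ℝ) | ∀ k, K ≤ k → r ≤ (ω * avg ε m k x).re}.Countable := by
  set D := {x : AddCircle (1 : ℝ) | ∀ k, K ≤ k → r ≤ (ω * avg ε m k x).re} with hD
  have hm' : 0 < |(m : ℝ)| := abs_pos.mpr (by exact_mod_cast hm)
  set δ : ℝ := 1 / (2 * (1 + ε) ^ K * |(m : ℝ)|) with hδ
  have hpow : 0 < (1 + ε) ^ K := by positivity
  have hδpos : 0 < δ := by positivity
  have hsep : ∀ x ∈ D, ∀ y ∈ D, x ≠ y → δ ≤ dist x y := by
    intro x hx y hy hxy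
    by_contra hcon
    push Not at hcon
    have hd : 0 < |(m : ℝ)| * ‖x - y‖ := by
      have : 0 < ‖x - y‖ := norm_pos_iff.mpr (sub_ne_zero.mpr hxy)
      positivity
    rw [dist_eq_norm, hδ, lt_div_iff₀ (by positivity)] at hcon
    obtain ⟨k, hk, hk1, hk2⟩ := exists_scale hε hd (K := K) (by nlinarith)
    have h1 := norm_avg_add_avg_le hε hk1 hk2
    have h2 := hx k hk
    have h3 := hy k hk
    have h4 : 2 * r ≤ (ω * (avg ε m k x + avg ε m k y)).re := by
      rw [mul_add, Complex.add_re]; linarith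
    have h5 : (ω * (avg ε m k x + avg ε m k y)).re ≤ ‖ω‖ * (π * ε) :=
      (Complex.re_le_norm _).trans (by
        rw [norm_mul]; exact mul_le_mul_of_nonneg_left h1 (norm_nonneg _))
    linarith
  have hdisj : D.PairwiseDisjoint (fun x => Metric.ball x (δ / 2)) := by
    intro x hx y hy hxy
    apply Metric.ball_disjoint_ball
    have := hsep x hx y hy hxy
    linarith
  exact hdisj.countable_of_isOpen (fun x _ => Metric.isOpen_ball)
    (fun x _ => ⟨x, Metric.mem_ball_self (by positivity)⟩)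

/-- **Countability.** For `m ≠ 0`, all but countably many points `x` of the circle are such that no open
half plane at distance more than `π ε / 2` from `0` contains all but finitely many averages. -/
theorem countable_halfplane {ε : ℝ} (hε : 0 < ε) {m : ℤ} (hm : m ≠ 0) :
    {x : AddCircle (1 : ℝ) | ∃ ω : ℂ, ‖ω‖ ≤ 1 ∧ ∃ r : ℝ, π * ε / 2 < r ∧
      ∀ᶠ k in atTop, r ≤ (ω * avg ε m k x).re}.Countable := by
  have hpi := Real.pi_pos
  obtain ⟨Q, hQc, hQd⟩ := TopologicalSpace.exists_countable_dense ℂ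
  refine Set.Countable.mono (s₂ := ⋃ ω ∈ {ω ∈ Q | True}, ⋃ (q : ℚ), ⋃ (K : ℕ),
    {x : AddCircle (1 : ℝ) | ‖ω‖ * (π * ε) < 2 * (q : ℝ) ∧
      ∀ k, K ≤ k → (q : ℝ) ≤ (ω * avg ε m k x).re}) ?_ ?_
  · rintro x ⟨ω, hω, r, hr, hx⟩
    obtain ⟨K, hK⟩ := eventually_atTop.mp hx
    set η : ℝ := (r - π * ε / 2) / (2 * (1 + π * ε)) with hη
    have hηpos : 0 < η := by
      have : 0 < r - π * ε / 2 := by linarith
      positivity
    obtain ⟨ω', hω'Q, hω'⟩ := Metric.mem_closure_iff.mp (hQd ω) η hηpos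
    rw [dist_eq_norm] at hω'
    have hωn : ‖ω'‖ ≤ 1 + η := by
      calc ‖ω'‖ = ‖ω - (ω - ω')‖ := by congr 1; ring
        _ ≤ ‖ω‖ + ‖ω - ω'‖ := norm_sub_le _ _
        _ ≤ 1 + η := by linarith
    have hη2 : η * (2 * (1 + π * ε)) = r - π * ε / 2 := by
      rw [hη]; field_simp
    have hqex : ‖ω'‖ * (π * ε) / 2 < r - η := by
      have : ‖ω'‖ * (π * ε) ≤ (1 + η) * (π * ε) := by
        apply mul_le_mul_of_nonneg_right hωn; positivity
      nlinarith [mul_pos hpi hε, mul_pos hηpos (mul_pos hpi hε)]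
    obtain ⟨q, hq1, hq2⟩ := exists_rat_btwn hqex
    simp only [mem_iUnion, mem_ofPred_eq]
    refine ⟨ω', ⟨hω'Q, trivial⟩, q, K, by linarith, ?_⟩
    intro k hk
    have h1 := hK k hk
    have h2 : (ω * avg ε m k x).re - (ω' * avg ε m k x).re ≤ η := by
      rw [← Complex.sub_re, ← sub_mul]
      refine (Complex.re_le_norm _).trans ?_
      rw [norm_mul]
      calc ‖ω - ω'‖ * ‖avg ε m k x‖ ≤ η * 1 := by
            apply mul_le_mul hω'.le (norm_avg_le _ _ _ _) (norm_nonneg _) hηpos.le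
        _ = η := mul_one _
    linarith
  · have hQ' : ({ω ∈ Q | True} : Set ℂ).Countable := hQc.mono (fun ω h => h.1)
    refine hQ'.biUnion fun ω _ => countable_iUnion fun q => countable_iUnion fun K => ?_
    by_cases h : ‖ω‖ * (π * ε) < 2 * (q : ℝ)
    · exact (countable_halfplane_aux hε hm ω q h K).mono (fun x hx => hx.2)
    · refine Set.Countable.mono (s₂ := ∅) (fun x hx => (h hx.1).elim) countable_empty

/-- If the averages converge, the limit has modulus at most `π ε / 2`, with countably many exceptions. -/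
theorem countable_limit {ε : ℝ} (hε : 0 < ε) {m : ℤ} (hm : m ≠ 0) :
    {x : AddCircle (1 : ℝ) | ∃ c : ℂ, π * ε / 2 < ‖c‖ ∧
      Tendsto (fun k => avg ε m k x) atTop (𝓝 c)}.Countable := by
  refine (countable_halfplane hε hm).mono ?_
  rintro x ⟨c, hc, hx⟩
  have hpi := Real.pi_pos
  have hc0 : 0 < ‖c‖ := lt_trans (by positivity) hc
  refine ⟨(starRingEnd ℂ) c / ‖c‖, ?_, (‖c‖ + π * ε / 2) / 2, by linarith, ?_⟩
  · rw [norm_div, RCLike.norm_conj, Complex.norm_real, norm_norm, div_self hc0.ne']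
  · have h1 : Tendsto (fun k => ((starRingEnd ℂ) c / ‖c‖ * avg ε m k x).re) atTop
        (𝓝 ((starRingEnd ℂ) c / ‖c‖ * c).re) :=
      (Complex.continuous_re.tendsto _).comp (hx.const_mul _)
    have h2 : ((starRingEnd ℂ) c / ‖c‖ * c).re = ‖c‖ := by
      have : (starRingEnd ℂ) c / ‖c‖ * c = ((‖c‖ : ℝ) : ℂ) := by
        have hne : ((‖c‖ : ℝ) : ℂ) ≠ 0 := by exact_mod_cast hc0.ne'
        rw [div_mul_eq_mul_div, div_eq_iff hne, mul_comm, Complex.mul_conj, Complex.normSq_eq_norm_sq]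
        push_cast; ring
      rw [this, Complex.ofReal_re]
    rw [h2] at h1
    exact (h1.eventually (lt_mem_nhds (show (‖c‖ + π * ε / 2) / 2 < ‖c‖ by linarith))).mono
      fun k hk => hk.le

end Pool.Agent.H29E
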