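import Pool.Agent.MP_e27144_an.LeadBall
import Pool.Agent.H29E.WinBasic

/-!
# The number of elements of a window grows linearly
-/

open Set Filter Topology MeasureTheory
open scoped ENNReal NNReal Real

namespace Pool.Agent.H29E

open Pool.Agent.MP_e27144_an

/-- Non-lacunarity, with a bound for one of the exponents. -/
lemma exists_between_bdd {p q : ℝ} (hp : 1 < p) (hq : 1 < q) {k l : ℕ} (hk : 0 < k)
    {u : ℝ} (h1 : p ^ k < q ^ l) (h2 : q ^ l < u * p ^ k) :
    ∃ (L : ℕ) (X₀ : ℝ), 1 ≤ X₀ ∧ 0 < L ∧ ∀ X, X₀ ≤ X → ∃ a b : ℕ, b < L ∧ p ^ a * q ^ b ≤ X ∧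
      X < u * (p ^ a * q ^ b) := by
  have hl : 0 < l := by
    rcases Nat.eq_zero_or_pos l with h | h
    · rw [h, pow_zero] at h1
      have : (1 : ℝ) ≤ p ^ k := one_le_pow₀ hp.le
      linarith
    · exact h
  set v : ℝ := q ^ l / p ^ k with hv
  have hpk : 0 < p ^ k := by positivity
  have hv1 : 1 < v := by rw [hv, one_lt_div hpk]; exact h1
  have hvu : v < u := by rw [hv, div_lt_iff₀ hpk]; exact h2
  have hu : 0 < u := by linarith
  obtain ⟨N, hN⟩ := pow_unbounded_of_one_lt p hv1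
  have hN0 : 0 < N := by
    rcases Nat.eq_zero_or_pos N with h | h
    · rw [h, pow_zero] at hN; linarith
    · exact h
  refine ⟨N * l, p ^ (N * k), one_le_pow₀ hp.le, Nat.mul_pos hN0 hl, fun X hX => ?_⟩
  have hXpos : 0 < X := lt_of_lt_of_le (by positivity) hX
  -- largest power of `p` below `X`
  obtain ⟨a, ha1, ha2⟩ : ∃ a : ℕ, p ^ a ≤ X ∧ X < p ^ (a + 1) :=
    exists_nat_pow_near (le_trans (one_le_pow₀ hp.le) hX) hp
  have haN : N * k ≤ a := by
    by_contra hcon
    push Not at hcon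
    have : p ^ (a + 1) ≤ p ^ (N * k) := pow_le_pow_right₀ hp.le hcon
    linarith
  -- largest `j` with `p ^ a * v ^ j ≤ X`
  have hXa : 1 ≤ X / p ^ a := by rw [le_div_iff₀ (by positivity)]; simpa using ha1
  obtain ⟨j, hj1, hj2⟩ : ∃ j : ℕ, v ^ j ≤ X / p ^ a ∧ X / p ^ a < v ^ (j + 1) :=
    exists_nat_pow_near hXa hv1
  have hjN : j < N := by
    have h3 : X / p ^ a < p := by
      rw [div_lt_iff₀ (by positivity)]; rw [pow_succ] at ha2; linarith
    by_contra hcon
    push Not at hcon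
    have : v ^ N ≤ v ^ j := pow_le_pow_right₀ hv1.le hcon
    linarith
  have hjk : j * k ≤ a := le_trans (Nat.mul_le_mul_right k hjN.le) haN
  have heq : p ^ (a - j * k) * q ^ (j * l) = p ^ a * v ^ j := by
    have : p ^ a = p ^ (a - j * k) * (p ^ k) ^ j := by
      rw [← pow_mul, mul_comm k j, ← pow_add, Nat.sub_add_cancel hjk]
    rw [this, hv, div_pow, mul_comm j l, pow_mul]
    field_simp
  refine ⟨a - j * k, j * l, Nat.mul_lt_mul_of_pos_right hjN hl, ?_, ?_⟩
  · rw [heq]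
    rw [le_div_iff₀ (by positivity)] at hj1
    linarith
  · rw [heq]
    rw [div_lt_iff₀ (by positivity), pow_succ] at hj2
    have : 0 < p ^ a * v ^ j := by positivity
    nlinarith

/-- The ratio of two powers, one of `2` and one of `3`, can be made as close to `1` as one likes. -/
lemma exists_ratio {u : ℝ} (hu : 1 < u) :
    (∃ k l : ℕ, 0 < k ∧ (2 : ℝ) ^ k < 3 ^ l ∧ (3 : ℝ) ^ l < u * 2 ^ k) ∨
    (∃ k l : ℕ, 0 < k ∧ (3 : ℝ) ^ k < 2 ^ l ∧ (2 : ℝ) ^ l < u * 3 ^ k) := by
  have h2 : 0 < Real.log 2 := Real.log_pos (by norm_num)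
  have h3 : 0 < Real.log 3 := Real.log_pos (by norm_num)
  have hd : Dense (AddSubgroup.closure {Real.log 2, Real.log 3} : Set ℝ) :=
    dense_addSubgroupClosure_pair_iff.mpr irrational_log_two_div_log_three
  set w : ℝ := min (Real.log u) (Real.log 2) with hw
  have hwpos : 0 < w := lt_min (Real.log_pos hu) h2
  obtain ⟨x, hx1, hx2⟩ := hd.exists_mem_open isOpen_Ioo (Set.nonempty_Ioo.mpr hwpos)
  obtain ⟨m, n, hmn⟩ := AddSubgroup.mem_closure_pair.mp hx1
  simp only [zsmul_eq_mul] at hmn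
  have hx0 : 0 < x := hx2.1
  have hxu : x < Real.log u := lt_of_lt_of_le hx2.2 (min_le_left _ _)
  have hxl : x < Real.log 2 := lt_of_lt_of_le hx2.2 (min_le_right _ _)
  have h23 : Real.log 2 < Real.log 3 := Real.log_lt_log (by norm_num) (by norm_num)
  rcases lt_or_ge 0 m with hm | hm
  · right
    have hn : n < 0 := by
      by_contra hcon
      push Not at hcon
      have h4 : (1 : ℝ) ≤ m := by exact_mod_cast hm
      have h5 : (0 : ℝ) ≤ n := by exact_mod_cast hcon
      nlinarith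
    obtain ⟨k, hk⟩ : ∃ k : ℕ, m = k := ⟨m.toNat, (Int.toNat_of_nonneg hm.le).symm⟩
    obtain ⟨l, hl⟩ : ∃ l : ℕ, -n = l := ⟨(-n).toNat, (Int.toNat_of_nonneg (by omega)).symm⟩
    have hl' : (n : ℝ) = -l := by
      have : n = -(l : ℤ) := by omega
      rw [this]; push_cast; ring
    have hk' : (m : ℝ) = k := by rw [hk]; simp
    have hlpos : 0 < l := by omega
    rw [hl', hk'] at hmn
    refine ⟨l, k, hlpos, ?_, ?_⟩
    · have : Real.log ((3 : ℝ) ^ l) < Real.log (2 ^ k) := by
        rw [Real.log_pow, Real.log_pow]; linarith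
      exact (Real.log_lt_log_iff (by positivity) (by positivity)).mp this
    · have : Real.log ((2 : ℝ) ^ k) < Real.log (u * 3 ^ l) := by
        rw [Real.log_mul (by positivity) (by positivity), Real.log_pow, Real.log_pow]; linarith
      exact (Real.log_lt_log_iff (by positivity) (by positivity)).mp this
  · left
    have hn : 0 < n := by
      by_contra hcon
      push Not at hcon
      have h4 : (m : ℝ) ≤ 0 := by exact_mod_cast hm
      have h5 : (n : ℝ) ≤ 0 := by exact_mod_cast hcon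
      nlinarith
    have hm' : m < 0 := by
      rcases lt_or_eq_of_le hm with h | h
      · exact h
      · exfalso
        have h5 : (1 : ℝ) ≤ n := by exact_mod_cast hn
        rw [h] at hmn
        push_cast at hmn
        nlinarith
    obtain ⟨l, hl⟩ : ∃ l : ℕ, n = l := ⟨n.toNat, (Int.toNat_of_nonneg hn.le).symm⟩
    obtain ⟨k, hk⟩ : ∃ k : ℕ, -m = k := ⟨(-m).toNat, (Int.toNat_of_nonneg (by omega)).symm⟩
    have hk' : (m : ℝ) = -k := by
      have : m = -(k : ℤ) := by omega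
      rw [this]; push_cast; ring
    have hl' : (n : ℝ) = l := by rw [hl]; simp
    have hkpos : 0 < k := by omega
    rw [hl', hk'] at hmn
    refine ⟨k, l, hkpos, ?_, ?_⟩
    · have : Real.log ((2 : ℝ) ^ k) < Real.log (3 ^ l) := by
        rw [Real.log_pow, Real.log_pow]; linarith
      exact (Real.log_lt_log_iff (by positivity) (by positivity)).mp this
    · have : Real.log ((3 : ℝ) ^ l) < Real.log (u * 2 ^ k) := by
        rw [Real.log_mul (by positivity) (by positivity), Real.log_pow, Real.log_pow]; linarith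
      exact (Real.log_lt_log_iff (by positivity) (by positivity)).mp this

lemma card_window_aux {ε : ℝ} (hε : 0 < ε) {p q : ℕ} (hp : 1 < p) (hq : 1 < q)
    (hS : ∀ a b : ℕ, ∃ a' b' : ℕ, p ^ a * q ^ b = 2 ^ a' * 3 ^ b')
    (hinj : ∀ a b a' b' : ℕ, p ^ a * q ^ b = p ^ a' * q ^ b' → b = b')
    {k₀ l₀ : ℕ} (hk₀ : 0 < k₀) {u : ℝ} (hu : 1 < u) (hu2 : u ^ 2 = 1 + ε)
    (h1 : (p : ℝ) ^ k₀ < (q : ℝ) ^ l₀) (h2 : (q : ℝ) ^ l₀ < u * (p : ℝ) ^ k₀) :
    ∃ c : ℝ, 0 < c ∧ ∀ᶠ k : ℕ in atTop, c * k ≤ (window ε k).card := by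
  have hpr : (1 : ℝ) < p := by exact_mod_cast hp
  have hqr : (1 : ℝ) < q := by exact_mod_cast hq
  obtain ⟨L, X₀, hX₀, hL, hX⟩ := exists_between_bdd hpr hqr hk₀ h1 h2
  have h1ε : 1 < 1 + ε := by linarith
  obtain ⟨T, hT⟩ := pow_unbounded_of_one_lt ((q : ℝ) ^ L) h1ε
  obtain ⟨T₀, hT₀⟩ := pow_unbounded_of_one_lt X₀ h1ε
  have hTpos : 0 < T := by
    rcases Nat.eq_zero_or_pos T with h | h
    · rw [h, pow_zero] at hT
      have : (1 : ℝ) ≤ (q : ℝ) ^ L := one_le_pow₀ hqr.le
      linarith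
    · exact h
  have hTr : (0 : ℝ) < T := by exact_mod_cast hTpos
  refine ⟨1 / (2 * T), by positivity, ?_⟩
  filter_upwards [eventually_ge_atTop (2 * T₀)] with k hk
  set n : ℕ := (k - T₀) / T with hn
  have hnT : n * T + T₀ ≤ k := by
    have := Nat.div_mul_le_self (k - T₀) T
    rw [← hn] at this
    omega
  have hnT2 : k < (n + 1) * T + T₀ := by
    have h := Nat.lt_div_mul_add (a := k - T₀) hTpos
    rw [← hn] at h
    rw [Nat.add_mul, one_mul]
    omega
  -- the elements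
  have hel : ∀ i : ℕ, i ≤ n → ∃ a b : ℕ, b < L ∧ p ^ a * q ^ (b + i * L) ∈ window ε k := by
    intro i hi
    set X : ℝ := (1 + ε) ^ k * u / (q : ℝ) ^ (i * L) with hXdef
    have hqiL : 0 < (q : ℝ) ^ (i * L) := by positivity
    have hX0X : X₀ ≤ X := by
      rw [hXdef, le_div_iff₀ hqiL]
      calc X₀ * (q : ℝ) ^ (i * L) ≤ (1 + ε) ^ T₀ * ((q : ℝ) ^ L) ^ i := by
            rw [mul_comm i L, pow_mul]
            gcongr
        _ ≤ (1 + ε) ^ T₀ * ((1 + ε) ^ T) ^ i := by gcongr
        _ = (1 + ε) ^ (T₀ + T * i) := by rw [pow_add, pow_mul]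
        _ ≤ (1 + ε) ^ k := by
            apply pow_le_pow_right₀ h1ε.le
            nlinarith
        _ ≤ (1 + ε) ^ k * u := by
            have : 0 < (1 + ε) ^ k := by positivity
            nlinarith
    obtain ⟨a, b, hb, hab, hab'⟩ := hX X hX0X
    refine ⟨a, b, hb, ?_⟩
    rw [hXdef, le_div_iff₀ hqiL] at hab
    rw [hXdef, div_lt_iff₀ hqiL] at hab'
    rw [mem_window]
    push_cast
    rw [pow_add]
    refine ⟨⟨?_, ?_⟩, ?_⟩
    · have : (1 + ε) ^ k * u < u * ((p : ℝ) ^ a * ((q : ℝ) ^ b * (q : ℝ) ^ (i * L))) := by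
        calc (1 + ε) ^ k * u < u * ((p : ℝ) ^ a * (q : ℝ) ^ b) * (q : ℝ) ^ (i * L) := hab'
          _ = _ := by ring
      have hu0 : 0 < u := by linarith
      nlinarith
    · have hpk : 0 < (1 + ε) ^ k := by positivity
      calc (p : ℝ) ^ a * ((q : ℝ) ^ b * (q : ℝ) ^ (i * L))
          = (p : ℝ) ^ a * (q : ℝ) ^ b * (q : ℝ) ^ (i * L) := by ring
        _ ≤ (1 + ε) ^ k * u := hab
        _ < (1 + ε) ^ k * u ^ 2 := by
            apply mul_lt_mul_of_pos_left _ hpk
            nlinarith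
        _ = (1 + ε) ^ (k + 1) := by rw [hu2, pow_succ]
    · obtain ⟨a', b', h⟩ := hS a (b + i * L)
      exact ⟨a', b', by rw [← h, pow_add]⟩
  choose! a b hb hmem using hel
  have hcard : n + 1 ≤ (window ε k).card := by
    rw [← Finset.card_range (n + 1)]
    apply Finset.card_le_card_of_injOn (fun i => p ^ (a i) * q ^ (b i + i * L))
    · intro i hi
      have hi' : i ≤ n := by simpa [Nat.lt_succ_iff] using hi
      exact hmem i hi'
    · intro i hi j hj hij
      have hi' : i ≤ n := by simpa [Nat.lt_succ_iff] using hi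
      have hj' : j ≤ n := by simpa [Nat.lt_succ_iff] using hj
      have h := hinj _ _ _ _ hij
      have hbi := hb i hi'
      have hbj := hb j hj'
      by_contra hne
      rcases lt_or_gt_of_ne hne with h' | h'
      · have : (i + 1) * L ≤ j * L := Nat.mul_le_mul_right L h'
        rw [Nat.add_mul, one_mul] at this
        omega
      · have : (j + 1) * L ≤ i * L := Nat.mul_le_mul_right L h'
        rw [Nat.add_mul, one_mul] at this
        omega
  have hcard' : ((n : ℝ) + 1) ≤ (window ε k).card := by exact_mod_cast hcard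
  have hnT2' : (k : ℝ) < (n + 1) * T + T₀ := by exact_mod_cast hnT2
  have hk' : 2 * (T₀ : ℝ) ≤ k := by exact_mod_cast hk
  rw [div_mul_eq_mul_div, one_mul, div_le_iff₀ (by positivity)]
  nlinarith

/-- The windows have linearly many elements. -/
theorem card_window {ε : ℝ} (hε : 0 < ε) :
    ∃ c : ℝ, 0 < c ∧ ∀ᶠ k : ℕ in atTop, c * k ≤ (window ε k).card := by
  have hu : 1 < Real.sqrt (1 + ε) := by
    rw [Real.lt_sqrt (by norm_num)]; linarith
  have hu2 : Real.sqrt (1 + ε) ^ 2 = 1 + ε := Real.sq_sqrt (by linarith)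
  rcases exists_ratio hu with ⟨k, l, hk, h1, h2⟩ | ⟨k, l, hk, h1, h2⟩
  · refine card_window_aux hε (p := 2) (q := 3) (l₀ := l) (by norm_num) (by norm_num)
      (fun a b => ⟨a, b, rfl⟩) (fun a b a' b' h => (two_three_inj h).2) hk hu hu2 ?_ ?_
    · exact_mod_cast h1
    · exact_mod_cast h2
  · refine card_window_aux hε (p := 3) (q := 2) (l₀ := l) (by norm_num) (by norm_num)
      (fun a b => ⟨b, a, mul_comm _ _⟩) (fun a b a' b' h => ?_) hk hu hu2 ?_ ?_
    · rw [mul_comm (3 ^ a), mul_comm (3 ^ a')] at h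
      exact (two_three_inj h).1
    · exact_mod_cast h1
    · exact_mod_cast h2

end Pool.Agent.H29E
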