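import Pool.Agent.H29E.WinCard

/-!
# Lebesgue almost every point has window averages tending to `0`
-/

open Set Filter Topology MeasureTheory
open scoped ENNReal NNReal Real

namespace Pool.Agent.H29E

open Pool.Agent.MP_e27144_an

lemma padic_two {a b c d : ℕ} (h : a < c) : padicValNat 2 (2 ^ a * 3 ^ b + 2 ^ c * 3 ^ d) = a := by
  have : Fact (Nat.Prime 2) := ⟨Nat.prime_two⟩
  obtain ⟨e, rfl⟩ : ∃ e, c = a + 1 + e := ⟨c - (a + 1), by omega⟩
  have h1 : 2 ^ a * 3 ^ b + 2 ^ (a + 1 + e) * 3 ^ d = 2 ^ a * (3 ^ b + 2 * (2 ^ e * 3 ^ d)) := by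
    rw [pow_add, pow_add]; ring
  have h2 : ¬ 2 ∣ 3 ^ b + 2 * (2 ^ e * 3 ^ d) := by
    intro hdvd
    have h3 : 2 ∣ 3 ^ b := (Nat.dvd_add_left (Dvd.intro _ rfl)).mp hdvd
    have := Nat.prime_two.dvd_of_dvd_pow h3
    omega
  rw [h1, padicValNat.mul (by positivity) (by positivity), padicValNat.prime_pow,
    padicValNat.eq_zero_of_not_dvd h2, add_zero]

lemma padic_three {a b c d : ℕ} (h : b < d) : padicValNat 3 (2 ^ a * 3 ^ b + 2 ^ c * 3 ^ d) = b := by
  have : Fact (Nat.Prime 3) := ⟨Nat.prime_three⟩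
  obtain ⟨e, rfl⟩ : ∃ e, d = b + 1 + e := ⟨d - (b + 1), by omega⟩
  have h1 : 2 ^ a * 3 ^ b + 2 ^ c * 3 ^ (b + 1 + e) = 3 ^ b * (2 ^ a + 3 * (2 ^ c * 3 ^ e)) := by
    rw [pow_add, pow_add]; ring
  have h2 : ¬ 3 ∣ 2 ^ a + 3 * (2 ^ c * 3 ^ e) := by
    intro hdvd
    have h3 : 3 ∣ 2 ^ a := (Nat.dvd_add_left (Dvd.intro _ rfl)).mp hdvd
    have := Nat.prime_three.dvd_of_dvd_pow h3
    omega
  rw [h1, padicValNat.mul (by positivity) (by positivity), padicValNat.prime_pow,
    padicValNat.eq_zero_of_not_dvd h2, add_zero]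

lemma pow_close {p x y : ℕ} (hp : 2 ≤ p) (h1 : p ^ x < 2 * p ^ y) : x ≤ y := by
  by_contra hcon
  push Not at hcon
  have h2 : p ^ (y + 1) ≤ p ^ x := Nat.pow_le_pow_right (by omega) hcon
  rw [pow_succ] at h2
  have h3 : 2 * p ^ y ≤ p ^ y * p := by rw [mul_comm]; exact Nat.mul_le_mul_left _ hp
  omega

lemma window_lt_two_mul {ε : ℝ} (_hε : 0 < ε) (hε1 : ε ≤ 1) {k s t : ℕ} (hs : s ∈ window ε k)
    (ht : t ∈ window ε k) : s < 2 * t := by
  obtain ⟨⟨hs1, hs2⟩, -⟩ := mem_window.mp hs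
  obtain ⟨⟨ht1, ht2⟩, -⟩ := mem_window.mp ht
  have : (s : ℝ) < 2 * t := by
    rw [pow_succ] at hs2
    have : 0 < (1 + ε) ^ k := by positivity
    nlinarith
  exact_mod_cast this

open Classical in
lemma rep_count {ε : ℝ} (hε : 0 < ε) (hε1 : ε ≤ 1) (k n : ℕ) :
    ((window ε k).filter (fun s => ∃ t ∈ window ε k, s + t = n)).card ≤ 5 := by
  set v := padicValNat 2 n with hv
  set w := padicValNat 3 n with hw
  set A1 := (window ε k).filter (fun s => ∃ b, s = 2 ^ v * 3 ^ b) with hA1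
  set A2 := (window ε k).filter (fun s => ∃ a, s = 2 ^ a * 3 ^ w) with hA2
  have hc1 : A1.card ≤ 1 := by
    rw [Finset.card_le_one]
    intro x hx y hy
    simp only [hA1, Finset.mem_filter] at hx hy
    obtain ⟨hx1, b, rfl⟩ := hx
    obtain ⟨hy1, b', rfl⟩ := hy
    have h1 := window_lt_two_mul hε hε1 hx1 hy1
    have h2 := window_lt_two_mul hε hε1 hy1 hx1
    have hpos : 0 < 2 ^ v := by positivity
    have h3 : b ≤ b' := pow_close (p := 3) (by norm_num) (by
      have : 2 ^ v * 3 ^ b < 2 ^ v * (2 * 3 ^ b') := by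
        calc 2 ^ v * 3 ^ b < 2 * (2 ^ v * 3 ^ b') := h1
          _ = _ := by ring
      exact Nat.lt_of_mul_lt_mul_left this)
    have h4 : b' ≤ b := pow_close (p := 3) (by norm_num) (by
      have : 2 ^ v * 3 ^ b' < 2 ^ v * (2 * 3 ^ b) := by
        calc 2 ^ v * 3 ^ b' < 2 * (2 ^ v * 3 ^ b) := h2
          _ = _ := by ring
      exact Nat.lt_of_mul_lt_mul_left this)
    rw [le_antisymm h3 h4]
  have hc2 : A2.card ≤ 1 := by
    rw [Finset.card_le_one]
    intro x hx y hy
    simp only [hA2, Finset.mem_filter] at hx hy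
    obtain ⟨hx1, b, rfl⟩ := hx
    obtain ⟨hy1, b', rfl⟩ := hy
    have h1 := window_lt_two_mul hε hε1 hx1 hy1
    have h2 := window_lt_two_mul hε hε1 hy1 hx1
    have h3 : b ≤ b' := pow_close (p := 2) (by norm_num) (by
      have : 3 ^ w * 2 ^ b < 3 ^ w * (2 * 2 ^ b') := by
        calc 3 ^ w * 2 ^ b = 2 ^ b * 3 ^ w := by ring
          _ < 2 * (2 ^ b' * 3 ^ w) := h1
          _ = _ := by ring
      exact Nat.lt_of_mul_lt_mul_left this)
    have h4 : b' ≤ b := pow_close (p := 2) (by norm_num) (by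
      have : 3 ^ w * 2 ^ b' < 3 ^ w * (2 * 2 ^ b) := by
        calc 3 ^ w * 2 ^ b' = 2 ^ b' * 3 ^ w := by ring
          _ < 2 * (2 ^ b * 3 ^ w) := h2
          _ = _ := by ring
      exact Nat.lt_of_mul_lt_mul_left this)
    rw [le_antisymm h3 h4]
  have hsub : (window ε k).filter (fun s => ∃ t ∈ window ε k, s + t = n) ⊆
      (({n / 2, 2 ^ v * 3 ^ w, n - 2 ^ v * 3 ^ w} : Finset ℕ) ∪ A1) ∪ A2 := by
    intro s hs
    rw [Finset.mem_filter] at hs
    obtain ⟨hsW, t, htW, hst⟩ := hs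
    obtain ⟨-, a, b, hsab⟩ := mem_window.mp hsW
    obtain ⟨-, c, d, htcd⟩ := mem_window.mp htW
    have h1 := window_lt_two_mul hε hε1 hsW htW
    have h2 := window_lt_two_mul hε hε1 htW hsW
    simp only [Finset.mem_union, Finset.mem_insert, Finset.mem_singleton, hA1, hA2,
      Finset.mem_filter]
    rcases lt_trichotomy a c with hac | hac | hac
    · have hva : v = a := by rw [hv, ← hst, hsab, htcd]; exact padic_two hac
      rcases lt_trichotomy b d with hbd | hbd | hbd
      · have hwb : w = b := by rw [hw, ← hst, hsab, htcd]; exact padic_three hbd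
        left; left; right; left
        rw [hva, hwb, hsab]
      · -- impossible
        exfalso
        subst hbd
        have : 2 ^ c < 2 * 2 ^ a := by
          have h3 : 3 ^ b * 2 ^ c < 3 ^ b * (2 * 2 ^ a) := by
            calc 3 ^ b * 2 ^ c = t := by rw [htcd]; ring
              _ < 2 * s := h2
              _ = _ := by rw [hsab]; ring
          exact Nat.lt_of_mul_lt_mul_left h3
        have := pow_close (by norm_num) this
        omega
      · left; right
        exact ⟨hsW, b, by rw [hva, hsab]⟩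
    · -- `a = c` forces `b = d`
      subst hac
      have hb1 : b ≤ d := pow_close (p := 3) (by norm_num) (by
        have : 2 ^ a * 3 ^ b < 2 ^ a * (2 * 3 ^ d) := by
          calc 2 ^ a * 3 ^ b = s := by rw [hsab]
            _ < 2 * t := h1
            _ = _ := by rw [htcd]; ring
        exact Nat.lt_of_mul_lt_mul_left this)
      have hb2 : d ≤ b := pow_close (p := 3) (by norm_num) (by
        have : 2 ^ a * 3 ^ d < 2 ^ a * (2 * 3 ^ b) := by
          calc 2 ^ a * 3 ^ d = t := by rw [htcd]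
            _ < 2 * s := h2
            _ = _ := by rw [hsab]; ring
        exact Nat.lt_of_mul_lt_mul_left this)
      have hbd : b = d := le_antisymm hb1 hb2
      subst hbd
      have : s = t := by rw [hsab, htcd]
      left; left; left
      omega
    · have hva : v = c := by
        rw [hv, ← hst, hsab, htcd, add_comm]; exact padic_two hac
      rcases lt_trichotomy b d with hbd | hbd | hbd
      · have hwb : w = b := by rw [hw, ← hst, hsab, htcd]; exact padic_three hbd
        right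
        exact ⟨hsW, a, by rw [hwb, hsab]⟩
      · exfalso
        subst hbd
        have : 2 ^ a < 2 * 2 ^ c := by
          have h3 : 3 ^ b * 2 ^ a < 3 ^ b * (2 * 2 ^ c) := by
            calc 3 ^ b * 2 ^ a = s := by rw [hsab]; ring
              _ < 2 * t := h1
              _ = _ := by rw [htcd]; ring
          exact Nat.lt_of_mul_lt_mul_left h3
        have := pow_close (by norm_num) this
        omega
      · have hwd : w = d := by
          rw [hw, ← hst, hsab, htcd, add_comm]; exact padic_three hbd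
        left; left; right; right
        rw [hva, hwd, ← htcd]
        omega
  calc _ ≤ ((({n / 2, 2 ^ v * 3 ^ w, n - 2 ^ v * 3 ^ w} : Finset ℕ) ∪ A1) ∪ A2).card :=
        Finset.card_le_card hsub
    _ ≤ 3 + 1 + 1 := by
        refine (Finset.card_union_le _ _).trans ?_
        refine add_le_add ?_ hc2
        refine (Finset.card_union_le _ _).trans ?_
        exact add_le_add Finset.card_le_three hc1
    _ = 5 := rfl

/-- Integrals of characters. -/
lemma integral_fourier_ne_zero {n : ℤ} (hn : n ≠ 0) :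
    ∫ x : AddCircle (1 : ℝ), fourier n x = 0 := by
  have h1 : ∫ x : AddCircle (1 : ℝ), fourier n (x + (((1 : ℝ) / 2 / n : ℝ) : AddCircle (1 : ℝ)))
      = ∫ x : AddCircle (1 : ℝ), fourier n x :=
    integral_add_right_eq_self (fun x : AddCircle (1 : ℝ) => (fourier n x : ℂ)) _
  have h2 : ∀ x : AddCircle (1 : ℝ),
      fourier n (x + (((1 : ℝ) / 2 / n : ℝ) : AddCircle (1 : ℝ))) = - fourier n x :=
    fun x => fourier_add_half_inv_index hn one_pos x
  simp_rw [h2] at h1
  rw [integral_neg] at h1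
  have h3 : (2 : ℂ) * ∫ x : AddCircle (1 : ℝ), fourier n x = 0 := by
    linear_combination -h1
  simpa using h3

instance : IsProbabilityMeasure (volume : Measure (AddCircle (1 : ℝ))) := ⟨by simp⟩

lemma integral_fourier_eq (n : ℤ) :
    ∫ x : AddCircle (1 : ℝ), fourier n x = if n = 0 then 1 else 0 := by
  split_ifs with h
  · subst h; simp
  · exact integral_fourier_ne_zero h

/-- The sum of characters over the window. -/
noncomputable def wsum (ε : ℝ) (m : ℤ) (k : ℕ) (x : AddCircle (1 : ℝ)) : ℂ :=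
  ∑ s ∈ window ε k, fourier (m * (s : ℤ)) x

lemma wsum_pow_four (ε : ℝ) (m : ℤ) (k : ℕ) (x : AddCircle (1 : ℝ)) :
    ((‖wsum ε m k x‖ ^ 4 : ℝ) : ℂ) =
      ∑ p ∈ (window ε k ×ˢ window ε k) ×ˢ (window ε k ×ˢ window ε k),
        fourier (m * ((p.1.1 : ℤ) + p.1.2 - p.2.1 - p.2.2)) x := by
  have h1 : ((‖wsum ε m k x‖ ^ 4 : ℝ) : ℂ)
      = (wsum ε m k x * wsum ε m k x) * ((starRingEnd ℂ) (wsum ε m k x) * (starRingEnd ℂ) (wsum ε m k x)) := by
    have h2 : wsum ε m k x * (starRingEnd ℂ) (wsum ε m k x) = ((‖wsum ε m k x‖ ^ 2 : ℝ) : ℂ) := by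
      rw [Complex.mul_conj, Complex.normSq_eq_norm_sq]
    calc ((‖wsum ε m k x‖ ^ 4 : ℝ) : ℂ)
        = ((‖wsum ε m k x‖ ^ 2 : ℝ) : ℂ) * ((‖wsum ε m k x‖ ^ 2 : ℝ) : ℂ) := by push_cast; ring
      _ = _ := by rw [← h2]; ring
  rw [h1]
  unfold wsum
  rw [map_sum, Finset.sum_mul_sum, Finset.sum_mul_sum, ← Finset.sum_product', ← Finset.sum_product',
    Finset.sum_mul_sum, ← Finset.sum_product']
  refine Finset.sum_congr rfl fun p _ => ?_
  rw [← fourier_neg, ← fourier_neg, ← fourier_add, ← fourier_add, ← fourier_add]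
  congr 2
  ring

open Classical in
lemma integral_wsum_pow_four {ε : ℝ} (hε : 0 < ε) (hε1 : ε ≤ 1) {m : ℤ} (hm : m ≠ 0) (k : ℕ) :
    ∫ x : AddCircle (1 : ℝ), ‖wsum ε m k x‖ ^ 4 ≤ 5 * ((window ε k).card : ℝ) ^ 2 := by
  set W := window ε k with hW
  have h1 : ((∫ x : AddCircle (1 : ℝ), ‖wsum ε m k x‖ ^ 4 : ℝ) : ℂ)
      = (((((W ×ˢ W) ×ˢ (W ×ˢ W)).filter
          (fun p => (p.1.1 : ℤ) + p.1.2 - p.2.1 - p.2.2 = 0)).card : ℝ) : ℂ) := by
    rw [← integral_complex_ofReal]
    simp_rw [wsum_pow_four]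
    rw [integral_finsetSum _ (fun p _ => ?_)]
    · simp_rw [integral_fourier_eq]
      rw [Finset.card_filter]
      push_cast
      refine Finset.sum_congr rfl fun p _ => ?_
      by_cases h : (p.1.1 : ℤ) + p.1.2 - p.2.1 - p.2.2 = 0
      · rw [h]; simp
      · rw [if_neg h, if_neg (mul_ne_zero hm h)]; simp
    · exact (fourier _).continuous.integrable_of_hasCompactSupport
        (HasCompactSupport.of_compactSpace _)
  have h2 : ∫ x : AddCircle (1 : ℝ), ‖wsum ε m k x‖ ^ 4
      = ((((W ×ˢ W) ×ˢ (W ×ˢ W)).filter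
          (fun p => (p.1.1 : ℤ) + p.1.2 - p.2.1 - p.2.2 = 0)).card : ℝ) := by
    exact_mod_cast h1
  rw [h2]
  have h3 : (((W ×ˢ W) ×ˢ (W ×ˢ W)).filter
          (fun p => (p.1.1 : ℤ) + p.1.2 - p.2.1 - p.2.2 = 0)).card ≤ 5 * W.card ^ 2 := by
    rw [Finset.card_filter, Finset.sum_product]
    have h4 : ∀ a ∈ W ×ˢ W, (∑ b ∈ W ×ˢ W,
        if (a.1 : ℤ) + a.2 - b.1 - b.2 = 0 then 1 else 0) ≤ 5 := by
      intro a _
      rw [← Finset.card_filter]
      refine le_trans ?_ (rep_count hε hε1 k (a.1 + a.2))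
      apply Finset.card_le_card_of_injOn (fun b => b.1)
      · intro b hb
        simp only [Finset.coe_filter, Finset.mem_product, mem_ofPred_eq] at hb ⊢
        refine ⟨hb.1.1, b.2, hb.1.2, ?_⟩
        have := hb.2
        omega
      · intro b hb b' hb' hbb'
        simp only [Finset.coe_filter, Finset.mem_product, mem_ofPred_eq] at hb hb'
        have h5 := hb.2
        have h6 := hb'.2
        simp only at hbb'
        ext
        · exact hbb'
        · rw [hbb'] at h5
          omega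
    refine (Finset.sum_le_sum h4).trans ?_
    rw [Finset.sum_const, Finset.card_product, smul_eq_mul]
    nlinarith
  exact_mod_cast h3

/-- For Lebesgue almost every `x` the averages tend to `0`. -/
theorem ae_tendsto_zero {ε : ℝ} (hε : 0 < ε) (hε1 : ε ≤ 1) {m : ℤ} (hm : m ≠ 0) :
    ∀ᵐ x : AddCircle (1 : ℝ), Tendsto (fun k => avg ε m k x) atTop (𝓝 0) := by
  obtain ⟨c, hc, hcard⟩ := card_window hε
  obtain ⟨K, hK⟩ := eventually_atTop.mp hcard
  set K' := K + 1 with hK'
  -- the fourth moments of the averages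
  have hmom : ∀ k, K' ≤ k → ∫⁻ x : AddCircle (1 : ℝ), ENNReal.ofReal (‖avg ε m k x‖ ^ 4)
      ≤ ENNReal.ofReal (5 / (c ^ 2 * (k : ℝ) ^ 2)) := by
    intro k hk
    have hcont : Continuous fun x : AddCircle (1 : ℝ) => ‖avg ε m k x‖ ^ 4 :=
      (continuous_avg ε m k).norm.pow 4
    have hint : Integrable (fun x : AddCircle (1 : ℝ) => ‖avg ε m k x‖ ^ 4) :=
      hcont.integrable_of_hasCompactSupport (HasCompactSupport.of_compactSpace _)
    rw [← ofReal_integral_eq_lintegral_ofReal hint (Eventually.of_forall fun x => by positivity)]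
    apply ENNReal.ofReal_le_ofReal
    have h1 := hK k (by omega)
    have hkpos : (0 : ℝ) < k := by
      have : 0 < k := by omega
      exact_mod_cast this
    have hWpos : 0 < ((window ε k).card : ℝ) := lt_of_lt_of_le (by positivity) h1
    have h2 : ∀ x : AddCircle (1 : ℝ), ‖avg ε m k x‖ ^ 4
        = (1 / ((window ε k).card : ℝ) ^ 4) * ‖wsum ε m k x‖ ^ 4 := by
      intro x
      unfold avg wsum
      rw [norm_div, Complex.norm_natCast, div_pow]
      ring
    simp_rw [h2]
    rw [integral_const_mul]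
    calc 1 / ((window ε k).card : ℝ) ^ 4 * ∫ x : AddCircle (1 : ℝ), ‖wsum ε m k x‖ ^ 4
        ≤ 1 / ((window ε k).card : ℝ) ^ 4 * (5 * ((window ε k).card : ℝ) ^ 2) := by
          apply mul_le_mul_of_nonneg_left (integral_wsum_pow_four hε hε1 hm k); positivity
      _ = 5 / ((window ε k).card : ℝ) ^ 2 := by field_simp
      _ ≤ 5 / (c * k) ^ 2 := by
          apply div_le_div_of_nonneg_left (by norm_num) (by positivity)
          exact pow_le_pow_left₀ (by positivity) h1 2
      _ = 5 / (c ^ 2 * (k : ℝ) ^ 2) := by rw [mul_pow]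
  have hsum : ∑' k : ℕ, ∫⁻ x : AddCircle (1 : ℝ), ENNReal.ofReal (‖avg ε m (k + K') x‖ ^ 4) ≠ ∞ := by
    have hs : Summable (fun k : ℕ => 5 / (c ^ 2 * ((k + K' : ℕ) : ℝ) ^ 2)) := by
      have h0 : Summable (fun k : ℕ => 1 / ((k : ℕ) : ℝ) ^ 2) :=
        Real.summable_one_div_nat_pow.mpr (by norm_num)
      have h1 := (summable_nat_add_iff K').mpr h0
      have h2 := h1.mul_left (5 / c ^ 2)
      refine h2.congr fun k => ?_
      rw [div_mul_div_comm, mul_one]
    refine ne_top_of_le_ne_top (b := ∑' k : ℕ, ENNReal.ofReal (5 / (c ^ 2 * ((k + K' : ℕ) : ℝ) ^ 2)))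
      ?_ (ENNReal.tsum_le_tsum fun k => hmom (k + K') (by omega))
    rw [← ENNReal.ofReal_tsum_of_nonneg (fun k => by positivity) hs]
    exact ENNReal.ofReal_ne_top
  rw [← lintegral_tsum (fun k => by
    exact ((continuous_avg ε m (k + K')).norm.pow 4).measurable.ennreal_ofReal.aemeasurable)] at hsum
  have hae := ae_lt_top' (by
    exact (Measurable.ennreal_tsum fun k =>
      ((continuous_avg ε m (k + K')).norm.pow 4).measurable.ennreal_ofReal).aemeasurable) hsum
  filter_upwards [hae] with x hx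
  have h1 := ENNReal.tendsto_atTop_zero_of_tsum_ne_top hx.ne
  have h2 : Tendsto (fun k => ‖avg ε m (k + K') x‖ ^ 4) atTop (𝓝 0) := by
    have := (ENNReal.tendsto_toReal ENNReal.zero_ne_top).comp h1
    simpa [Function.comp_def, ENNReal.toReal_ofReal] using this
  have h3 : Tendsto (fun k => ‖avg ε m (k + K') x‖) atTop (𝓝 0) := by
    have := h2.rpow_const (p := (1 / 4 : ℝ)) (Or.inr (by norm_num))
    rw [Real.zero_rpow (by norm_num)] at this
    refine this.congr fun k => ?_
    rw [← Real.rpow_natCast, ← Real.rpow_mul (norm_nonneg _)]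
    norm_num
  exact (tendsto_add_atTop_iff_nat K').mp (tendsto_zero_iff_norm_tendsto_zero.mpr h3)

end Pool.Agent.H29E
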