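import Pool.Agent.H29E.WinLeb

/-!
# Window averages and Lebesgue measure
-/

open Set Filter Topology MeasureTheory
open scoped ENNReal NNReal Real BoundedContinuousFunction

namespace Pool.Agent.H29E

open Pool.Agent.MP_e27144_an

/-- A probability measure on the circle with vanishing Fourier coefficients is Lebesgue measure. -/
lemma eq_volume_of_fourier {μ : Measure (AddCircle (1 : ℝ))} [IsProbabilityMeasure μ]
    (h : ∀ m : ℤ, m ≠ 0 → ∫ x, fourier m x ∂μ = 0) : μ = volume := by
  have hI : ∀ (ν : Measure (AddCircle (1 : ℝ))) [IsProbabilityMeasure ν] (f : C(AddCircle (1 : ℝ), ℂ)),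
      Integrable f ν := fun ν _ f =>
    f.continuous.integrable_of_hasCompactSupport (HasCompactSupport.of_compactSpace _)
  have hbd : ∀ (ν : Measure (AddCircle (1 : ℝ))) [IsProbabilityMeasure ν] (f : C(AddCircle (1 : ℝ), ℂ)),
      ‖∫ x, f x ∂ν‖ ≤ ‖f‖ := by
    intro ν _ f
    refine (norm_integral_le_of_norm_le_const (C := ‖f‖)
      (Eventually.of_forall fun x => f.norm_coe_le_norm x)).trans ?_
    simp
  have hspan : ∀ g ∈ Submodule.span ℂ (range (@fourier 1)),
      ∫ x, g x ∂μ = ∫ x : AddCircle (1 : ℝ), g x := by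
    intro g hg
    induction hg using Submodule.span_induction with
    | mem g hg =>
      obtain ⟨n, rfl⟩ := hg
      by_cases hn : n = 0
      · subst hn; simp
      · rw [h n hn, integral_fourier_ne_zero hn]
    | zero => simp
    | add f g _ _ hf hg =>
      simp only [ContinuousMap.add_apply]
      rw [integral_add (hI μ f) (hI μ g), integral_add (hI volume f) (hI volume g), hf, hg]
    | smul c f _ hf =>
      simp only [ContinuousMap.smul_apply, smul_eq_mul]
      rw [integral_const_mul, integral_const_mul, hf]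
  have hall : ∀ f : C(AddCircle (1 : ℝ), ℂ), ∫ x, f x ∂μ = ∫ x : AddCircle (1 : ℝ), f x := by
    intro f
    have hf : f ∈ (Submodule.span ℂ (range (@fourier 1))).topologicalClosure := by
      have : Fact ((0 : ℝ) < 1) := ⟨one_pos⟩
      rw [span_fourier_closure_eq_top]; trivial
    rw [← SetLike.mem_coe, Submodule.topologicalClosure_coe, Metric.mem_closure_iff] at hf
    rw [← sub_eq_zero, ← norm_eq_zero]
    refine le_antisymm (le_of_forall_pos_le_add fun δ hδ => ?_) (norm_nonneg _)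
    obtain ⟨g, hg, hfg⟩ := hf (δ / 2) (by positivity)
    rw [dist_eq_norm] at hfg
    have e1 : ∫ x, f x ∂μ - ∫ x : AddCircle (1 : ℝ), f x
        = ∫ x, (f - g) x ∂μ - ∫ x : AddCircle (1 : ℝ), (f - g) x := by
      simp only [ContinuousMap.sub_apply]
      rw [integral_sub (hI μ f) (hI μ g), integral_sub (hI volume f) (hI volume g),
        hspan g hg]
      ring
    rw [e1]
    calc ‖∫ x, (f - g) x ∂μ - ∫ x : AddCircle (1 : ℝ), (f - g) x‖
        ≤ ‖∫ x, (f - g) x ∂μ‖ + ‖∫ x : AddCircle (1 : ℝ), (f - g) x‖ := norm_sub_le _ _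
      _ ≤ ‖f - g‖ + ‖f - g‖ := add_le_add (hbd μ _) (hbd volume _)
      _ ≤ 0 + δ := by linarith
  apply ext_of_forall_integral_eq_of_IsFiniteMeasure
  intro f
  have h1 := hall ⟨fun x => ((f x : ℝ) : ℂ), Complex.continuous_ofReal.comp f.continuous⟩
  simp only [ContinuousMap.coe_mk] at h1
  rw [integral_complex_ofReal, integral_complex_ofReal] at h1
  exact_mod_cast h1

/-- Averages of characters over windows integrate to the Fourier coefficient. -/
lemma integral_avg {μ : Measure (AddCircle (1 : ℝ))} [IsProbabilityMeasure μ]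
    (h2 : MeasurePreserving (fun x : AddCircle (1 : ℝ) => (2 : ℕ) • x) μ μ)
    (h3 : MeasurePreserving (fun x : AddCircle (1 : ℝ) => (3 : ℕ) • x) μ μ)
    {ε : ℝ} {m : ℤ} {k : ℕ} (hk : (window ε k).card ≠ 0) :
    ∫ x, avg ε m k x ∂μ = ∫ x, fourier m x ∂μ := by
  have hI : ∀ n : ℤ, Integrable (fun x : AddCircle (1 : ℝ) => (fourier n x : ℂ)) μ := fun n =>
    (fourier n).continuous.integrable_of_hasCompactSupport (HasCompactSupport.of_compactSpace _)
  unfold avg
  rw [integral_div, integral_finsetSum _ (fun s _ => hI _)]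
  have h4 : ∀ s ∈ window ε k, ∫ x, fourier (m * (s : ℤ)) x ∂μ = ∫ x, fourier m x ∂μ := by
    intro s hs
    obtain ⟨-, a, b, rfl⟩ := mem_window.mp hs
    have hmp := mp_pow h2 h3 a b
    have e1 : ∀ x : AddCircle (1 : ℝ), fourier (m * ((2 ^ a * 3 ^ b : ℕ) : ℤ)) x
        = fourier m ((2 ^ a * 3 ^ b : ℕ) • x) := by
      intro x
      rw [fourier_apply, fourier_apply, mul_smul, natCast_zsmul]
    simp_rw [e1]
    have h5 := integral_map (μ := μ) hmp.measurable.aemeasurable
      (f := fun y : AddCircle (1 : ℝ) => (fourier m y : ℂ))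
      (fourier m).continuous.aestronglyMeasurable
    rw [hmp.map_eq] at h5
    exact h5.symm
  rw [Finset.sum_congr rfl h4, Finset.sum_const, nsmul_eq_mul, mul_div_cancel_left₀]
  exact_mod_cast hk

/-- If the averages converge almost everywhere, the Fourier coefficient is small. -/
lemma norm_fourier_le {μ : Measure (AddCircle (1 : ℝ))} [IsProbabilityMeasure μ] [NullSingletonClass μ]
    (h2 : MeasurePreserving (fun x : AddCircle (1 : ℝ) => (2 : ℕ) • x) μ μ)
    (h3 : MeasurePreserving (fun x : AddCircle (1 : ℝ) => (3 : ℕ) • x) μ μ)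
    {ε : ℝ} (hε : 0 < ε) {m : ℤ} (hm : m ≠ 0)
    (h : ∀ᵐ x ∂μ, ∃ c : ℂ, Tendsto (fun k => avg ε m k x) atTop (𝓝 c)) :
    ‖∫ x, fourier m x ∂μ‖ ≤ π * ε / 2 := by
  classical
  set f : AddCircle (1 : ℝ) → ℂ := fun x =>
    if hx : ∃ c : ℂ, Tendsto (fun k => avg ε m k x) atTop (𝓝 c) then hx.choose else 0 with hf
  have hlim : ∀ᵐ x ∂μ, Tendsto (fun k => avg ε m k x) atTop (𝓝 (f x)) := by
    filter_upwards [h] with x hx
    simp only [hf]
    rw [dif_pos hx]
    exact hx.choose_spec
  have hbound : ∀ᵐ x ∂μ, ‖f x‖ ≤ π * ε / 2 := by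
    have hnull := (countable_limit hε hm).measure_zero μ
    have hnot : ∀ᵐ x ∂μ, ¬ ∃ c : ℂ, π * ε / 2 < ‖c‖ ∧
        Tendsto (fun k => avg ε m k x) atTop (𝓝 c) := by
      rw [ae_iff]
      simpa using hnull
    filter_upwards [hlim, hnot] with x hx hx'
    by_contra hcon
    exact hx' ⟨f x, not_le.mp hcon, hx⟩
  have hcv : Tendsto (fun k => ∫ x, avg ε m k x ∂μ) atTop (𝓝 (∫ x, f x ∂μ)) := by
    refine tendsto_integral_of_dominated_convergence (fun _ => (1 : ℝ))
      (fun k => (continuous_avg ε m k).aestronglyMeasurable) (integrable_const _)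
      (fun k => Eventually.of_forall fun x => norm_avg_le ε m k x) hlim
  obtain ⟨c, hc, hcard⟩ := card_window hε
  have hev : ∀ᶠ k in atTop, ∫ x, avg ε m k x ∂μ = ∫ x, fourier m x ∂μ := by
    filter_upwards [hcard, eventually_gt_atTop 0] with k hk hk0
    apply integral_avg h2 h3
    intro h0
    rw [h0] at hk
    have : (0 : ℝ) < k := by exact_mod_cast hk0
    simp only [Nat.cast_zero] at hk
    nlinarith
  have heq : ∫ x, f x ∂μ = ∫ x, fourier m x ∂μ :=
    tendsto_nhds_unique (hcv.congr' hev) tendsto_const_nhds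
  rw [← heq]
  refine (norm_integral_le_of_norm_le_const hbound).trans ?_
  simp

/-- The one-sided set is countable when the Fourier coefficient is not small. -/
lemma countable_oneSided {ε : ℝ} (hε : 0 < ε) {m : ℤ} (hm : m ≠ 0) {c : ℂ} {η : ℝ}
    (h : ‖c‖ * (π * ε / 2) < ‖c‖ ^ 2 - η) (hc : c ≠ 0) :
    {x : AddCircle (1 : ℝ) | ∀ᶠ k in atTop,
      ‖c‖ ^ 2 - η ≤ ((starRingEnd ℂ) c * avg ε m k x).re}.Countable := by
  have hc0 : 0 < ‖c‖ := norm_pos_iff.mpr hc
  refine (countable_halfplane hε hm).mono ?_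
  intro x hx
  refine ⟨(starRingEnd ℂ) c / ‖c‖, ?_, (‖c‖ ^ 2 - η) / ‖c‖, ?_, ?_⟩
  · rw [norm_div, RCLike.norm_conj, Complex.norm_real, norm_norm, div_self hc0.ne']
  · rw [lt_div_iff₀ hc0]; linarith
  · filter_upwards [hx] with k hk
    rw [div_le_iff₀ hc0]
    have : ((starRingEnd ℂ) c / ‖c‖ * avg ε m k x).re = ((starRingEnd ℂ) c * avg ε m k x).re / ‖c‖ := by
      rw [div_mul_eq_mul_div, Complex.div_ofReal_re]
    rw [this, div_mul_cancel₀ _ hc0.ne']
    exact hk

end Pool.Agent.H29E
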